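import Pool.Agent.helper16.EXC.Spec3

set_option autoImplicit false

open Finset

namespace Pool.Agent.EXC

section

variable {n : ℕ} (C : Matrix (Fin n) (Fin n) ℤ) [IsC C] {F : Type} [Field F]

theorem ZIN_symm (hINV : INV_stmt) {e1 e2 f1 f2 : Lm C F} (h : S3 C e1 e2 f1 f2) : S3 C f2 f1 e2 e1 := by
  have hs := (hINV n C F).2.2.1
  exact ⟨h.y2, h.y1, h.x2, h.x1, by rw [hs]; exact h.a2, by rw [hs]; exact h.a1, by rw [hs]; exact h.b2,
    by rw [hs]; exact h.b1, h.c2, h.c1, h.c4, h.c3⟩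

theorem ZIN_i3 (hINV : INV_stmt) (e1 e2 f1 f2 : Lm C F) (M : Matrix (Fin 3) (Fin 3) F) (hM : M.trace = 0) :
    i3 C f2 f1 e2 e1 (M.submatrix Fin.rev Fin.rev) = i3 C e1 e2 f1 f2 M := by
  have ha := (hINV n C F).2.2.2.1
  have h22 : M 2 2 = -(M 0 0 + M 1 1) := by
    rw [Matrix.trace_fin_three] at hM
    linear_combination hM
  have r0 : Fin.rev (0 : Fin 3) = 2 := rfl
  have r1 : Fin.rev (1 : Fin 3) = 1 := rfl
  have r2 : Fin.rev (2 : Fin 3) = 0 := rfl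
  unfold i3
  simp only [Matrix.submatrix_apply, r0, r1, r2]
  rw [ha f2 e2, ha f1 e1, h22]
  module

theorem ZIN_a (hZTB : ZTB_stmt) {e1 e2 f1 f2 : Lm C F} (h : S3 C e1 e2 f1 f2) (M : Matrix (Fin 3) (Fin 3) F)
    (hM : M.trace = 0) (h0 : i3 C e1 e2 f1 f2 M = 0) : M 1 0 = 0 ∧ M 2 1 = 0 ∧ M 2 0 = 0 := by
  obtain ⟨h1, -, h3, h4⟩ := hZTB n C F e1 e2 f1 f2 h M hM
  rw [h0] at h1 h3 h4
  rw [fm_zero_right] at h3 h4
  rw [br_zero_right] at h1
  have htr : (Matrix.single 0 1 1 * M - M * Matrix.single 0 1 1 : Matrix (Fin 3) (Fin 3) F).trace = 0 := by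
    rw [Matrix.trace_sub, Matrix.trace_mul_comm, sub_self]
  obtain ⟨-, -, -, h5⟩ := hZTB n C F e1 e2 f1 f2 h _ htr
  rw [← h1, fm_zero_right] at h5
  refine ⟨by linear_combination h3, by linear_combination h4, ?_⟩
  simp [Matrix.sub_apply, Matrix.mul_apply, Matrix.single_apply] at h5
  exact h5.symm

theorem ZIN_b (hZTB : ZTB_stmt) (hINV : INV_stmt) {e1 e2 f1 f2 : Lm C F} (h : S3 C e1 e2 f1 f2)
    (M : Matrix (Fin 3) (Fin 3) F) (hM : M.trace = 0) (h0 : i3 C e1 e2 f1 f2 M = 0) :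
    (M 1 0 = 0 ∧ M 2 1 = 0 ∧ M 2 0 = 0) ∧ M 1 2 = 0 ∧ M 0 1 = 0 ∧ M 0 2 = 0 := by
  refine ⟨ZIN_a C hZTB h M hM h0, ?_⟩
  have h1 := ZIN_a C hZTB (ZIN_symm C hINV h) (M.submatrix Fin.rev Fin.rev) (by
    rw [Matrix.trace_fin_three] at hM ⊢
    have r0 : Fin.rev (0 : Fin 3) = 2 := rfl
    have r1 : Fin.rev (1 : Fin 3) = 1 := rfl
    have r2 : Fin.rev (2 : Fin 3) = 0 := rfl
    simp only [Matrix.submatrix_apply, r0, r1, r2]
    linear_combination hM) (by rw [ZIN_i3 C hINV e1 e2 f1 f2 M hM, h0])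
  have r0 : Fin.rev (0 : Fin 3) = 2 := rfl
  have r1 : Fin.rev (1 : Fin 3) = 1 := rfl
  have r2 : Fin.rev (2 : Fin 3) = 0 := rfl
  simp only [Matrix.submatrix_apply, r0, r1, r2] at h1
  exact h1

end

theorem ZIN (hZTB : ZTB_stmt) (hINV : INV_stmt) : ZIN_stmt := by
  intro n C _ F _ e1 e2 f1 f2 h h3 M hM h0
  obtain ⟨⟨m10, m21, m20⟩, m12, m01, m02⟩ := ZIN_b C hZTB hINV h M hM h0
  obtain ⟨h1, h2, -, -⟩ := hZTB n C F e1 e2 f1 f2 h M hM
  rw [h0, br_zero_right] at h1 h2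
  have ht1 : (Matrix.single 0 1 1 * M - M * Matrix.single 0 1 1 : Matrix (Fin 3) (Fin 3) F).trace = 0 := by
    rw [Matrix.trace_sub, Matrix.trace_mul_comm, sub_self]
  have ht2 : (Matrix.single 1 2 1 * M - M * Matrix.single 1 2 1 : Matrix (Fin 3) (Fin 3) F).trace = 0 := by
    rw [Matrix.trace_sub, Matrix.trace_mul_comm, sub_self]
  have k1 := (ZIN_b C hZTB hINV h _ ht1 h1.symm).2.2.1
  have k2 := (ZIN_b C hZTB hINV h _ ht2 h2.symm).2.1
  simp [Matrix.sub_apply, Matrix.mul_apply, Matrix.single_apply] at k1 k2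
  rw [Matrix.trace_fin_three] at hM
  have e0 : M 0 0 = 0 := by
    have h5 : (3 : F) * M 0 0 = 0 := by linear_combination hM - 2 * k1 - k2
    exact (mul_eq_zero.1 h5).resolve_left h3
  have e1' : M 1 1 = 0 := by linear_combination k1 + e0
  have e2' : M 2 2 = 0 := by linear_combination k2 + e1'
  ext i j
  fin_cases i <;> fin_cases j <;> simp [m10, m21, m20, m12, m01, m02, e0, e1', e2']

end Pool.Agent.EXC
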